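import Mathlib
import Pool.Agent.Lib.MP_731221_co.Plane

namespace Pool.Agent.Results.MP_731221_co.TranslatesTwo

open Pool.Agent.Lib.MP_731221_co

/-- The closed half-disk `{(x, y) : x² + y² ≤ 1, y ≥ 0}`. -/
def halfDisk : Set (ℝ × ℝ) := {p | p.1 ^ 2 + p.2 ^ 2 ≤ 1 ∧ 0 ≤ p.2}

/-- The family of all translates `C + v` of a planar set `C`. -/
def translates (C : Set (ℝ × ℝ)) : Set (Set (ℝ × ℝ)) :=
  {F | ∃ v : ℝ × ℝ, F = (fun p => p + v) '' C}

/-- The edge set of the hypergraph `H_m(P, ℱ)` on the vertex set `P`: the sets `P ∩ F` with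
`F ∈ ℱ` that have at least `m` elements. -/
def hyperedges (m : ℕ) (P : Finset (ℝ × ℝ)) (ℱ : Set (Set (ℝ × ℝ))) :
    Set (Set {p : ℝ × ℝ // p ∈ P}) :=
  {e | ∃ F ∈ ℱ, e = {p | p.1 ∈ F} ∧ m ≤ e.ncard}

/-- A colouring of the vertices is proper if no edge with at least two vertices is
monochromatic. -/
def IsProper {V : Type} (E : Set (Set V)) {k : ℕ} (col : V → Fin k) : Prop :=
  ∀ e ∈ E, 2 ≤ e.ncard → ∃ u ∈ e, ∃ v ∈ e, col u ≠ col v

/-- The chromatic number of the hypergraph with edge set `E` on the vertex type `V`. -/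
noncomputable def chromaticNumber {V : Type} (E : Set (Set V)) : ℕ∞ :=
  sInf {n : ℕ∞ | ∃ k : ℕ, n = k ∧ ∃ col : V → Fin k, IsProper E col}

/-- The big chromatic number: the least `k` such that for some `m ≥ 1` every finite point set
`P` satisfies `χ(H_m(P, ℱ)) ≤ k` (and `⊤` if there is no such `k`). -/
noncomputable def chiBig (ℱ : Set (Set (ℝ × ℝ))) : ℕ∞ :=
  sInf {n : ℕ∞ | ∃ k : ℕ, n = k ∧ ∃ m : ℕ, 1 ≤ m ∧
    ∀ P : Finset (ℝ × ℝ), chromaticNumber (hyperedges m P ℱ) ≤ k}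

theorem upper : chiBig (translates halfDisk) ≤ 2 := by
  classical
  obtain ⟨m0, hm0⟩ := plane_colouring
  refine sInf_le ⟨2, rfl, m0 + 1, by omega, fun P => ?_⟩
  obtain ⟨col, hcol⟩ := hm0 P
  refine sInf_le ⟨2, rfl, fun p => if col p then 1 else 0, ?_⟩
  rintro e ⟨F, ⟨v, hF⟩, he, hme⟩ -
  have hmem : ∀ p : ℝ × ℝ, p ∈ F ↔ p ∈ HD v := by
    intro p
    rw [hF]
    simp only [Set.mem_image, halfDisk, HD, Set.mem_ofPred_eq]
    constructor
    · rintro ⟨q, ⟨h1, h2⟩, rfl⟩
      simp only [Prod.fst_add, Prod.snd_add, add_sub_cancel_right]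
      exact ⟨h1, h2⟩
    · rintro ⟨h1, h2⟩
      refine ⟨p - v, ⟨?_, ?_⟩, by simp⟩
      · simpa using h1
      · simpa using h2
  have hfin : e.Finite := Set.toFinite e
  have hcard : m0 ≤ (hfin.toFinset.map (Function.Embedding.subtype _)).card := by
    rw [Finset.card_map, ← Set.ncard_eq_toFinset_card e hfin]
    omega
  have hG : ∀ p ∈ hfin.toFinset.map (Function.Embedding.subtype (fun p => p ∈ P)),
      p ∈ P ∧ p ∈ HD v := by
    intro p hp
    obtain ⟨q, hq, rfl⟩ := Finset.mem_map.1 hp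
    have hq' : q ∈ e := hfin.mem_toFinset.1 hq
    rw [he] at hq'
    exact ⟨q.2, (hmem _).1 hq'⟩
  obtain ⟨p, hpP, hpF, hpc⟩ := hcol v _ hG hcard true
  obtain ⟨q, hqP, hqF, hqc⟩ := hcol v _ hG hcard false
  refine ⟨⟨p, hpP⟩, ?_, ⟨q, hqP⟩, ?_, ?_⟩
  · rw [he]; exact (hmem p).2 hpF
  · rw [he]; exact (hmem q).2 hqF
  · simp [hpc, hqc]

theorem lower : 2 ≤ chiBig (translates halfDisk) := by
  classical
  refine le_sInf ?_
  rintro n ⟨k, rfl, m, -, hm⟩
  by_contra hlt
  push Not at hlt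
  set f : ℕ → ℝ × ℝ := fun i => ((i : ℝ) / ((m : ℝ) + 2), 0) with hf
  have hpos : (0 : ℝ) < (m : ℝ) + 2 := by positivity
  have hinj : Function.Injective f := by
    intro i j hij
    have h1 := congrArg Prod.fst hij
    simp only [hf] at h1
    have h2 : (i : ℝ) = j := by
      field_simp at h1
      exact h1
    exact_mod_cast h2
  set P : Finset (ℝ × ℝ) := (Finset.range (m + 2)).image f with hP
  have hPc : P.card = m + 2 := by
    rw [hP, Finset.card_image_of_injective _ hinj, Finset.card_range]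
  have hlt2 : chromaticNumber (hyperedges m P (translates halfDisk)) < 2 :=
    lt_of_le_of_lt (hm P) hlt
  obtain ⟨b, ⟨k', rfl, col, hcol⟩, hk'⟩ := sInf_lt_iff.1 hlt2
  have hk2 : k' < 2 := by exact_mod_cast hk'
  have hmemP : ∀ p ∈ P, p ∈ halfDisk := by
    intro p hp
    obtain ⟨i, hi, rfl⟩ := Finset.mem_image.1 hp
    have hi' : (i : ℝ) ≤ (m : ℝ) + 2 := by
      have := Finset.mem_range.1 hi
      have h' : (i : ℝ) ≤ ((m + 2 : ℕ) : ℝ) := by exact_mod_cast this.le
      push_cast at h'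
      exact h'
    have h0 : 0 ≤ (i : ℝ) / ((m : ℝ) + 2) := by positivity
    have h1 : (i : ℝ) / ((m : ℝ) + 2) ≤ 1 := (div_le_one hpos).2 hi'
    refine ⟨?_, le_rfl⟩
    simp only [hf]
    nlinarith
  have hun : (Set.univ : Set {p // p ∈ P}).ncard = m + 2 := by
    rw [Set.ncard_univ, Nat.card_eq_fintype_card, Fintype.card_coe, hPc]
  obtain ⟨u, -, v, -, huv⟩ := hcol Set.univ ⟨halfDisk, ⟨0, by simp⟩, by
      ext p
      simp only [Set.mem_univ, Set.mem_ofPred_eq, true_iff]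
      exact hmemP p.1 p.2, by rw [hun]; omega⟩ (by rw [hun]; omega)
  apply huv
  apply Fin.ext
  have h1 := (col u).2
  have h2 := (col v).2
  omega

/-- The big chromatic number of the family of translates of the half-disk is two. -/
theorem result : chiBig (translates halfDisk) = 2 := le_antisymm upper lower

end Pool.Agent.Results.MP_731221_co.TranslatesTwo
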